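import Pool.Agent.helper34.AC.Spec

/-! ac:RCN -/

set_option autoImplicit false

namespace Pool.Agent.helper34.AC

theorem RCN (hREC : REC_stmt) : RCN_stmt := by
  intro V _ G U v hv
  have key : ∀ f : ℕ → ℝ, ∑ P ∈ col G U, f P.card =
      ∑ S ∈ st G {v} (U.erase v), ∑ P ∈ col G (U.erase v \ S), f (P.card + 1) := by
    intro f
    rw [hREC V G U v (fun P => f P.card) hv]
    refine Finset.sum_congr rfl fun S _ => Finset.sum_congr rfl fun P hP => ?_
    have hP' : IsCol G (U.erase v \ S) P := by
      classical
      simp only [col, Finset.mem_filter] at hP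
      exact hP.2
    have hnot : insert v S ∉ P := by
      intro hmem
      have h1 := (hP'.1 _ hmem).2.1 (Finset.mem_insert_self v S)
      rw [Finset.mem_sdiff] at h1
      exact Finset.notMem_erase v U h1.1
    rw [Finset.card_insert_of_notMem hnot]
  have hN : N G U = ∑ S ∈ st G {v} (U.erase v), N G (U.erase v \ S) := by
    have h := key (fun _ => 1)
    simpa [N] using h
  refine ⟨?_, key, ?_⟩
  · rw [hN]
    unfold Mk
    refine Finset.sum_congr rfl fun S _ => ?_
    rw [Nat.descFactorial_zero, Nat.cast_one, one_mul]
  · have h := key (fun k => (k : ℝ) + 1)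
    rw [hN]
    unfold N1
    rw [h, ← Finset.sum_add_distrib]
    refine Finset.sum_congr rfl fun S _ => ?_
    unfold N
    rw [← nsmul_one ((col G (U.erase v \ S)).card), ← Finset.sum_const, ← Finset.sum_add_distrib]
    refine Finset.sum_congr rfl fun P _ => ?_
    push_cast
    ring

end Pool.Agent.helper34.AC
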